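import Pool.Agent.Hhelper10.FBMain

/-!
# A finitely based group of exponent 12 with a non finitely based overgroup of index two

`IsLaw X w`: the word `w` (an element of the free group on the letters `0, 1, 2, ...`) is a law of `X`.
`FinitelyBased G`: there is a finite set of laws of `G` such that every group satisfying them satisfies
all laws of `G`.
-/

set_option autoImplicit false

namespace Pool.Agent.Results.MP_233a97_al.IndexTwo

open Pool.Agent.Hhelper10.FB

/-- the word `w` is a law of the group `X` -/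
def IsLaw (X : Type) [Group X] (w : FreeGroup ℕ) : Prop := ∀ φ : FreeGroup ℕ →* X, φ w = 1

/-- the laws of `G` are finitely based -/
def FinitelyBased (G : Type) [Group G] : Prop :=
  ∃ W : Finset (FreeGroup ℕ), (∀ w ∈ W, IsLaw G w) ∧
    ∀ (X : Type) [Group X], (∀ w ∈ W, IsLaw X w) → ∀ w, IsLaw G w → IsLaw X w

private theorem verb_law (S : Finset (FreeGroup ℕ)) (X : Type) [Group X]
    (hS : ∀ s ∈ S, IsLaw X s) (w : FreeGroup ℕ) (hw : w ∈ verb S) : IsLaw X w := by
  intro φ
  have h : verb S ≤ φ.ker := by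
    refine (Subgroup.closure_le _).2 ?_
    rintro v ⟨s, hs, ψ, rfl⟩
    exact hS s hs (φ.comp ψ)
  exact h hw

private theorem HH_law12 (w : FreeGroup ℕ) (hw : ∀ φ : FreeGroup ℕ →* epsG.ker, φ w = 1) :
    w ∈ verb {FreeGroup.of 0 ^ 12} := by
  let σ : FreeGroup ℕ →* FreeGroup ℕ := FreeGroup.lift (fun i => FreeGroup.of (2 * i))
  let ρ : FreeGroup ℕ →* FreeGroup ℕ :=
    FreeGroup.lift (fun m => if m % 2 = 0 then FreeGroup.of (m / 2) else 1)
  have hρσ : ρ.comp σ = MonoidHom.id _ := by
    ext i
    simp only [ρ, σ, MonoidHom.comp_apply, FreeGroup.lift_apply_of, MonoidHom.id_apply]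
    have e1 : (2 * i) % 2 = 0 := by omega
    have e2 : (2 * i) / 2 = i := by omega
    rw [if_pos e1, e2]
  have hσ : ∀ y, eps0 (σ y) = 1 := by
    intro y
    have : eps0.comp σ = 1 := by
      ext i
      simp only [σ, eps0, MonoidHom.comp_apply, FreeGroup.lift_apply_of, MonoidHom.one_apply]
      have e1 : (2 * i) % 2 = 0 := by omega
      rw [if_pos e1]
    rw [← MonoidHom.comp_apply, this]; rfl
  let φ : FreeGroup ℕ →* epsG.ker :=
    ((QuotientGroup.mk' (VV eps0)).comp σ).codRestrict epsG.ker (by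
      intro y
      rw [MonoidHom.mem_ker]
      exact hσ y)
  have h1 : σ w ∈ VV eps0 := by
    rw [← mk_eq_one_iff]
    have := congrArg Subtype.val (hw φ)
    exact this
  have h2 : VV eps0 ≤ (verb {FreeGroup.of 0 ^ 12}).comap ρ := by
    apply VV_le
    intro y _
    rw [Subgroup.mem_comap]
    apply Subgroup.subset_closure
    refine ⟨_, Finset.mem_singleton_self _, FreeGroup.lift (fun _ => ρ y), ?_⟩
    rw [map_pow, map_pow, FreeGroup.lift_apply_of]
  have h3 := h2 h1
  rw [Subgroup.mem_comap, ← MonoidHom.comp_apply, hρσ] at h3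
  exact h3

private theorem epsG_surj : Function.Surjective epsG := by
  intro c
  have h1 : epsG (QuotientGroup.mk' (VV eps0) (FreeGroup.of 1)) = Multiplicative.ofAdd 1 := by
    rw [epsG_mk]
    simp [eps0]
  by_cases hc : c = 1
  · exact ⟨1, by rw [map_one, hc]⟩
  · refine ⟨QuotientGroup.mk' (VV eps0) (FreeGroup.of 1), ?_⟩
    rw [h1]
    exact C2_ne_one C2_gen hc

private theorem index_two : (epsG : GG →* C2).ker.index = 2 := by
  rw [Subgroup.index_ker, MonoidHom.range_eq_top.2 epsG_surj]
  simp [Nat.card_eq_fintype_card]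

/-- There is a countable group `G` with `g ^ 24 = 1` for all `g` and a normal subgroup `H` of index two
with `h ^ 12 = 1` for all `h` in `H` such that the laws of `H` are the consequences of the single law
`x ^ 12` (so `H` is finitely based), while the laws of `G` are not finitely based. -/
theorem result : ∃ (G : Type) (_ : Group G) (H : Subgroup G), Countable G ∧ H.Normal ∧
    H.index = 2 ∧ (∀ g : G, g ^ 24 = 1) ∧ (∀ h : H, h ^ 12 = 1) ∧
    (∀ (X : Type) [Group X], (∀ x : X, x ^ 12 = 1) → ∀ w, IsLaw H w → IsLaw X w) ∧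
    FinitelyBased H ∧ ¬ FinitelyBased G := by
  have hH12 : ∀ h : (epsG : GG →* C2).ker, h ^ 12 = 1 := by
    intro h
    apply Subtype.ext
    rw [Subgroup.coe_pow]
    exact GG_pow _ h.2
  have hlaw : ∀ w : FreeGroup ℕ, IsLaw (epsG : GG →* C2).ker w →
      w ∈ verb {FreeGroup.of 0 ^ 12} := by
    intro w hw
    exact HH_law12 w hw
  have hX : ∀ (X : Type) [Group X], (∀ x : X, x ^ 12 = 1) →
      ∀ w, IsLaw (epsG : GG →* C2).ker w → IsLaw X w := by
    intro X _ hx w hw
    refine verb_law {FreeGroup.of 0 ^ 12} X ?_ w (hlaw w hw)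
    intro s hs φ
    rw [Finset.mem_singleton] at hs
    subst hs
    rw [map_pow]
    exact hx _
  refine ⟨GG, inferInstance, epsG.ker, ?_, inferInstance, index_two, ?_, hH12, hX, ?_, ?_⟩
  · have h : Countable (FreeGroup ℕ) := by
      unfold FreeGroup
      infer_instance
    exact (QuotientGroup.mk'_surjective (VV eps0)).countable
  · intro g
    have h1 : epsG (g ^ 2) = 1 := by
      rw [map_pow]
      generalize epsG g = c
      revert c
      decide
    have h2 := GG_pow (g ^ 2) h1
    rw [← pow_mul] at h2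
    exact h2
  · refine ⟨{FreeGroup.of 0 ^ 12}, ?_, ?_⟩
    · intro s hs φ
      rw [Finset.mem_singleton] at hs
      subst hs
      rw [map_pow]
      exact hH12 _
    · intro X _ hS w hw
      refine hX X (fun x => ?_) w hw
      have := hS _ (Finset.mem_singleton_self _) (FreeGroup.lift (fun _ => x))
      rw [map_pow, FreeGroup.lift_apply_of] at this
      exact this
  · rintro ⟨W, hW, hW2⟩
    refine GG_not_based ⟨W, hW, fun w hw => ?_⟩
    have hN : (verb W).Normal := verb_normal W
    have h1 : ∀ s ∈ W, IsLaw (FreeGroup ℕ ⧸ verb W) s := by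
      intro s hs φ
      obtain ⟨ψ, hψ⟩ : ∃ ψ : FreeGroup ℕ →* FreeGroup ℕ,
          (QuotientGroup.mk' (verb W)).comp ψ = φ := by
        refine ⟨FreeGroup.lift (fun i => (φ (FreeGroup.of i)).out), ?_⟩
        refine FreeGroup.ext_hom _ _ (fun i => ?_)
        rw [MonoidHom.comp_apply, FreeGroup.lift_apply_of]
        exact Quotient.out_eq' _
      rw [← hψ, MonoidHom.comp_apply]
      exact (QuotientGroup.eq_one_iff _).2 (Subgroup.subset_closure ⟨s, hs, ψ, rfl⟩)
    have h2 := hW2 (FreeGroup ℕ ⧸ verb W) h1 w hw (QuotientGroup.mk' (verb W))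
    exact (QuotientGroup.eq_one_iff _).1 h2

end Pool.Agent.Results.MP_233a97_al.IndexTwo
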